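import Pool.Agent.RP5S.Levels
import Pool.Agent.RP5S.LD.D0
import Pool.Agent.RP5S.LD.D1
import Pool.Agent.RP5S.LD.D2
import Pool.Agent.RP5S.LD.D3
import Pool.Agent.RP5S.LD.D4
import Pool.Agent.RP5S.LD.D5

/-!
# Level D: no target can be extended
-/

set_option autoImplicit false

noncomputable section

namespace Pool.Agent.RP5S.LD

/-- a base whose search is complete is dead -/
theorem dead_of (B : SBase) {cs fuel str NX : ℕ} (hn : B.n = 17) (hT : B.T = 6) (hk : B.k = 4)
    (hok : B.ok' cs = true)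
    (hgo : B.go (fun _ _ _ => false) fuel str Stk.nil (Stk.cons 0 0 Stk.nil) = true)
    (hr : B.respOk NX = true) : Dead NX := by
  have hD : B.DoneD Stk.nil := fun _ _ _ _ _ => trivial
  exact B.dead hn hT hr (B.doneD hok hn hT hk hD hgo)

theorem dead0 : Dead (fl TG 578 (ones 578) 0) := dead_of B0 rfl rfl rfl ok0 go0 resp0

theorem dead1 : Dead (fl TG 578 (ones 578) 1) := dead_of B1 rfl rfl rfl ok1 go1 resp1

theorem dead2 : Dead (fl TG 578 (ones 578) 2) := dead_of B2 rfl rfl rfl ok2 go2 resp2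

theorem dead3 : Dead (fl TG 578 (ones 578) 3) := dead_of B3 rfl rfl rfl ok3 go3 resp3

theorem dead4 : Dead (fl TG 578 (ones 578) 4) := dead_of B4 rfl rfl rfl ok4 go4 resp4

theorem dead5 : Dead (fl TG 578 (ones 578) 5) := dead_of B5 rfl rfl rfl ok5 go5 resp5

theorem dead6 : Dead (fl TG 578 (ones 578) 6) := dead_of B6 rfl rfl rfl ok6 go6 resp6

theorem dead7 : Dead (fl TG 578 (ones 578) 7) := dead_of B7 rfl rfl rfl ok7 go7 resp7

theorem dead8 : Dead (fl TG 578 (ones 578) 8) := dead_of B8 rfl rfl rfl ok8 go8 resp8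

theorem dead9 : Dead (fl TG 578 (ones 578) 9) := dead_of B9 rfl rfl rfl ok9 go9 resp9

theorem dead10 : Dead (fl TG 578 (ones 578) 10) := dead_of B10 rfl rfl rfl ok10 go10 resp10

theorem dead11 : Dead (fl TG 578 (ones 578) 11) := dead_of B11 rfl rfl rfl ok11 go11 resp11

theorem dead12 : Dead (fl TG 578 (ones 578) 12) := dead_of B12 rfl rfl rfl ok12 go12 resp12

theorem dead13 : Dead (fl TG 578 (ones 578) 13) := dead_of B13 rfl rfl rfl ok13 go13 resp13

theorem dead14 : Dead (fl TG 578 (ones 578) 14) := dead_of B14 rfl rfl rfl ok14 go14 resp14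

theorem dead15 : Dead (fl TG 578 (ones 578) 15) := dead_of B15 rfl rfl rfl ok15 go15 resp15

theorem dead16 : Dead (fl TG 578 (ones 578) 16) := dead_of B16 rfl rfl rfl ok16 go16 resp16

theorem dead17 : Dead (fl TG 578 (ones 578) 17) := dead_of B17 rfl rfl rfl ok17 go17 resp17

theorem dead18 : Dead (fl TG 578 (ones 578) 18) := dead_of B18 rfl rfl rfl ok18 go18 resp18

theorem dead19 : Dead (fl TG 578 (ones 578) 19) := dead_of B19 rfl rfl rfl ok19 go19 resp19

theorem dead20 : Dead (fl TG 578 (ones 578) 20) := dead_of B20 rfl rfl rfl ok20 go20 resp20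

theorem dead21 : Dead (fl TG 578 (ones 578) 21) := dead_of B21 rfl rfl rfl ok21 go21 resp21

theorem dead22 : Dead (fl TG 578 (ones 578) 22) := dead_of B22 rfl rfl rfl ok22 go22 resp22

theorem dead23 : Dead (fl TG 578 (ones 578) 23) := dead_of B23 rfl rfl rfl ok23 go23 resp23

theorem dead24 : Dead (fl TG 578 (ones 578) 24) := dead_of B24 rfl rfl rfl ok24 go24 resp24

theorem dead25 : Dead (fl TG 578 (ones 578) 25) := dead_of B25 rfl rfl rfl ok25 go25 resp25

theorem dead26 : Dead (fl TG 578 (ones 578) 26) := dead_of B26 rfl rfl rfl ok26 go26 resp26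

theorem dead27 : Dead (fl TG 578 (ones 578) 27) := dead_of B27 rfl rfl rfl ok27 go27 resp27

theorem dead28 : Dead (fl TG 578 (ones 578) 28) := dead_of B28 rfl rfl rfl ok28 go28 resp28

theorem dead29 : Dead (fl TG 578 (ones 578) 29) := dead_of B29 rfl rfl rfl ok29 go29 resp29

theorem dead30 : Dead (fl TG 578 (ones 578) 30) := dead_of B30 rfl rfl rfl ok30 go30 resp30

theorem dead31 : Dead (fl TG 578 (ones 578) 31) := dead_of B31 rfl rfl rfl ok31 go31 resp31

theorem dead32 : Dead (fl TG 578 (ones 578) 32) := dead_of B32 rfl rfl rfl ok32 go32 resp32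

theorem dead33 : Dead (fl TG 578 (ones 578) 33) := dead_of B33 rfl rfl rfl ok33 go33 resp33

theorem dead34 : Dead (fl TG 578 (ones 578) 34) := dead_of B34 rfl rfl rfl ok34 go34 resp34

theorem dead35 : Dead (fl TG 578 (ones 578) 35) := dead_of B35 rfl rfl rfl ok35 go35 resp35

theorem dead36 : Dead (fl TG 578 (ones 578) 36) := dead_of B36 rfl rfl rfl ok36 go36 resp36

theorem dead37 : Dead (fl TG 578 (ones 578) 37) := dead_of B37 rfl rfl rfl ok37 go37 resp37

theorem dead38 : Dead (fl TG 578 (ones 578) 38) := dead_of B38 rfl rfl rfl ok38 go38 resp38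

theorem dead39 : Dead (fl TG 578 (ones 578) 39) := dead_of B39 rfl rfl rfl ok39 go39 resp39

theorem dead40 : Dead (fl TG 578 (ones 578) 40) := dead_of B40 rfl rfl rfl ok40 go40 resp40

theorem dead41 : Dead (fl TG 578 (ones 578) 41) := dead_of B41 rfl rfl rfl ok41 go41 resp41

theorem dead42 : Dead (fl TG 578 (ones 578) 42) := dead_of B42 rfl rfl rfl ok42 go42 resp42

theorem dead43 : Dead (fl TG 578 (ones 578) 43) := dead_of B43 rfl rfl rfl ok43 go43 resp43

theorem dead44 : Dead (fl TG 578 (ones 578) 44) := dead_of B44 rfl rfl rfl ok44 go44 resp44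

theorem dead45 : Dead (fl TG 578 (ones 578) 45) := dead_of B45 rfl rfl rfl ok45 go45 resp45

theorem dead46 : Dead (fl TG 578 (ones 578) 46) := dead_of B46 rfl rfl rfl ok46 go46 resp46

theorem dead47 : Dead (fl TG 578 (ones 578) 47) := dead_of B47 rfl rfl rfl ok47 go47 resp47

theorem dead48 : Dead (fl TG 578 (ones 578) 48) := dead_of B48 rfl rfl rfl ok48 go48 resp48

theorem dead49 : Dead (fl TG 578 (ones 578) 49) := dead_of B49 rfl rfl rfl ok49 go49 resp49

theorem dead50 : Dead (fl TG 578 (ones 578) 50) := dead_of B50 rfl rfl rfl ok50 go50 resp50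

theorem dead51 : Dead (fl TG 578 (ones 578) 51) := dead_of B51 rfl rfl rfl ok51 go51 resp51

theorem dead52 : Dead (fl TG 578 (ones 578) 52) := dead_of B52 rfl rfl rfl ok52 go52 resp52

theorem dead53 : Dead (fl TG 578 (ones 578) 53) := dead_of B53 rfl rfl rfl ok53 go53 resp53

/-- no target can be extended -/
theorem all_dead : ∀ t < nt, Dead (fl TG 578 (ones 578) t) := by
  intro t ht
  have ht' : t < 54 := ht
  clear ht
  interval_cases t
  exacts [dead0, dead1, dead2, dead3, dead4, dead5, dead6, dead7, dead8, dead9, dead10, dead11, dead12, dead13, dead14, dead15, dead16, dead17, dead18, dead19, dead20, dead21, dead22, dead23, dead24, dead25, dead26, dead27, dead28, dead29, dead30, dead31, dead32, dead33, dead34, dead35, dead36, dead37, dead38, dead39, dead40, dead41, dead42, dead43, dead44, dead45, dead46, dead47, dead48, dead49, dead50, dead51, dead52, dead53]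

end Pool.Agent.RP5S.LD
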